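import Pool.Agent.H242.GX.Stm2

/-!
# GX-BASEM
-/

set_option autoImplicit false

open Filter Topology
open scoped ContDiff

namespace Pool.Agent.H102.GX

open Pool.Agent.H242.GX

/-- a continuous function of one variable which vanishes off zero vanishes at zero -/
theorem zero_of_ne (f : ℝ → ℝ) (hf : Continuous f) (h : ∀ t : ℝ, t ≠ 0 → f t = 0) : f 0 = 0 := by
  have h1 : Tendsto f (𝓝[≠] (0 : ℝ)) (𝓝 (f 0)) := (hf.tendsto 0).mono_left nhdsWithin_le_nhds
  have h2 : Tendsto f (𝓝[≠] (0 : ℝ)) (𝓝 0) := by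
    refine (tendsto_const_nhds (x := (0 : ℝ))).congr' ?_
    filter_upwards [self_mem_nhdsWithin] with t ht
    exact (h t ht).symm
  exact tendsto_nhds_unique h1 h2

theorem gx_BASEM (hLIN : S_LIN) (hHAD : S_HAD) : S_BASEM := by
  intro X Z hW u hu hode
  obtain ⟨s, hs, hodd, hev, h0⟩ := hLIN X Z hW 1 le_rfl u hu
  have hs0 : ∀ θ : ℝ, s (θ, 0) = 0 := by
    intro θ
    rw [h0 θ]
    have h1 := hode θ
    have e : 2 * (deriv (fun t => (X (θ, t)).2) 0) ^ (2 * 1) * deriv (fun t => (X (θ, t)).1) 0 *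
        deriv u θ + 2 * ((1 : ℕ) : ℝ) * (deriv (fun t => (X (θ, t)).2) 0) ^ (2 * 1 - 1) *
        deriv (deriv (fun t => (X (θ, t)).2)) 0 * u θ =
        2 * (deriv (fun t => (X (θ, t)).2) 0) * (deriv (fun t => (X (θ, t)).2) 0 *
          deriv (fun t => (X (θ, t)).1) 0 * deriv u θ +
          deriv (deriv (fun t => (X (θ, t)).2)) 0 * u θ) := by
      norm_num
      ring
    rw [e, h1, mul_zero]
  obtain ⟨s₁, hs₁, he₁⟩ := hHAD s hs hs0
  have hs₁0 : ∀ θ : ℝ, s₁ (θ, 0) = 0 := by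
    intro θ
    have hc : Continuous fun t : ℝ => s₁ (θ, t) + s₁ (θ, -t) := by
      have h1 := hs₁.continuous
      fun_prop
    have h1 := zero_of_ne _ hc (by
      intro t ht
      have h2 := hev θ t
      rw [he₁, he₁] at h2
      apply mul_left_cancel₀ ht
      linarith)
    simp only [neg_zero] at h1
    linarith
  obtain ⟨E, hE, heE⟩ := hHAD s₁ hs₁ hs₁0
  refine ⟨E, hE, fun θ t => ?_⟩
  have h1 := hodd θ t
  rw [he₁, heE] at h1
  simp only [pow_one] at h1
  rw [h1]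
  ring

end Pool.Agent.H102.GX
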